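import Pool.Agent.T6.H19.PQ.Asm

/-!
# Sequential products of local operators are tensor networks
-/

set_option autoImplicit false
set_option linter.unusedSectionVars false

open scoped BigOperators Matrix
open Finset Pool.Agent.TH235.PP Pool.Agent.T6.H19.PQ

namespace Pool.Agent.T6.H19.MK

variable {d L : ℕ} [NeZero L]

theorem term_one {R : ℕ} (u : Site L) : term (1 : BoxOp d R) u = 1 := by
  classical
  ext s t
  by_cases hst : s = t
  · subst hst
    rw [Matrix.one_apply_eq]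
    unfold term
    rw [if_pos (fun _ _ => rfl), Matrix.one_apply_eq]
  · rw [Matrix.one_apply_ne hst]
    unfold term
    split_ifs with h
    · rw [Matrix.one_apply_ne]
      intro h2
      apply hst
      funext v
      by_cases hv : ∃ x : Fin R × Fin R, sh u x = v
      · obtain ⟨x, hx⟩ := hv
        rw [← hx]
        exact congrFun h2 x
      · push Not at hv
        exact h v hv
    · rfl

theorem ball_sub (ℓ : ℕ) (c : Site L) :
    {x : Site L | cd x c ≤ ℓ} ⊆ box (2 * ℓ + 1) (corner ℓ c) := by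
  intro x hx
  refine box_sub (R := 1) (ρ := ℓ) (b := x) (c := c) hx ?_
  exact ⟨(0, 0), by simp [sh]⟩

/-- the corners -/
def cornerEquiv (ℓ : ℕ) : Site L ≃ Site L where
  toFun := corner ℓ
  invFun u := (u.1 + (ℓ : ZMod L), u.2 + (ℓ : ZMod L))
  left_inv u := by ext <;> simp [corner]
  right_inv u := by ext <;> simp [corner]

theorem KTt_full {R : Type*} [Ring R] {N : ℕ} (T : Fin N → R) :
    KTt (fun (_ : Fin 1) b => T b - 1) 1 = op T := by
  classical
  unfold KTt
  have h1 : ∀ F : Fin 1 → Fin N → Bool, (∀ b, cnt F b ≤ 1) := by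
    intro F b
    unfold cnt
    refine (Finset.card_le_univ _).trans ?_
    simp
  have h2 : (∑ F : Fin 1 → Fin N → Bool, if (∀ b, cnt F b ≤ 1) then
      pr (fun t b => if F t b = true then T b - 1 else 1) else 0) =
      ∑ F : Fin 1 → Fin N → Bool, pr (fun t b => if F t b = true then T b - 1 else 1) :=
    Finset.sum_congr rfl fun F _ => if_pos (h1 F)
  rw [h2, ← pr_sum (fun (_ : Fin 1) (b : Fin N) (x : Bool) => if x = true then T b - 1 else 1)]
  unfold pr
  rw [op_succ, op_zero, mul_one]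
  congr 1
  funext b
  simp

theorem peps_seq (ℓ : ℕ) (hℓ : 2 * ℓ + 1 ≤ L) (v : Fin (L ^ 2) ≃ Site L)
    (T : Fin (L ^ 2) → TorOp d L) (hT : ∀ i, Sup {x | cd x (v i) ≤ ℓ} (T i))
    (s : Site L → Fin d) :
    ∃ D : ℕ, (D : ℝ) ≤ Real.exp ((2 * d * (2 * ℓ + 1) ^ 2 + 1) * (2 * ℓ + 1) ^ 2) ∧
      IsPEPS D (op T *ᵥ Pi.single s 1) := by
  classical
  have hk : ∀ i, ∃ k : BoxOp d (2 * ℓ + 1), T i = term k (corner ℓ (v i)) := fun i =>
    term_of_sup hℓ (corner ℓ (v i)) ((hT i).mono (ball_sub ℓ (v i)))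
  choose k hk using hk
  obtain ⟨e, he⟩ : ∃ e : Fin (L ^ 2) ≃ Site L, e = v.trans (cornerEquiv ℓ) := ⟨_, rfl⟩
  have heb : ∀ b, e b = corner ℓ (v b) := fun b => by rw [he]; rfl
  obtain ⟨A, hA⟩ := peps_apply_t (R' := 2 * ℓ) (K := Fin 1)
    (fun (x : Site L) (i : Fin d) _ _ _ _ => if i = s x then (1 : ℂ) else 0)
    (fun (_ : Fin 1) u => k (e.symm u) - 1) e 1
  have h1 : (fun (_ : Fin 1) b => (term (k (e.symm (e b)) - 1) (e b) : TorOp d L)) =
      fun (_ : Fin 1) b => T b - 1 := by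
    funext _ b
    rw [term_sub, term_one, Equiv.symm_apply_apply, heb, ← hk]
  rw [h1, KTt_full, basis_contract] at hA
  rw [hA]
  refine ⟨_, ?_, isPEPS_contract A⟩
  have hcL : Fintype.card (Lm d (2 * ℓ + 1)) = d ^ (2 * (2 * ℓ + 1) ^ 2) := by
    rw [Fintype.card_prod, Fintype.card_fun, Fintype.card_fin, Fintype.card_prod, Fintype.card_fin,
      ← pow_add]
    congr 1
    ring
  have h2 : ((1 * Fintype.card (Lm d (2 * ℓ + 1)) + 1 : ℕ) : ℝ) ≤
      Real.exp (2 * d * (2 * ℓ + 1) ^ 2 + 1) := by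
    rw [hcL]
    push_cast
    have hd : (d : ℝ) ≤ Real.exp d := by
      have := Real.add_one_le_exp (d : ℝ)
      linarith
    have k2 : (d : ℝ) ^ (2 * (2 * ℓ + 1) ^ 2) ≤ Real.exp (2 * d * (2 * ℓ + 1) ^ 2) := by
      calc (d : ℝ) ^ (2 * (2 * ℓ + 1) ^ 2) ≤ (Real.exp d) ^ (2 * (2 * ℓ + 1) ^ 2) :=
            pow_le_pow_left₀ (Nat.cast_nonneg _) hd _
        _ = Real.exp (2 * d * (2 * ℓ + 1) ^ 2) := by
            rw [← Real.exp_nat_mul]
            congr 1
            push_cast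
            ring
    have k3 : 1 ≤ Real.exp (2 * d * (2 * ℓ + 1) ^ 2 : ℝ) := Real.one_le_exp (by positivity)
    rw [Real.exp_add]
    have h5 := Real.exp_one_gt_d9
    nlinarith
  have h3 := card_bd (d := d) (R' := 2 * ℓ) 1 1 1 (2 * d * (2 * ℓ + 1) ^ 2 + 1) 1 (by positivity)
    h2 (by norm_num)
  refine h3.trans (le_of_eq ?_)
  push_cast
  rw [one_mul, mul_one]

end Pool.Agent.T6.H19.MK
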