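import Mathlib
import Pool.Agent.T6.H19.PQ.Geo

/-!
# Markov entropy and PEPS: definitions

Interface of the modules of the project MP_953b23_mp, slot 3.
-/

set_option autoImplicit false
set_option linter.unusedSectionVars false

open scoped BigOperators Matrix
open Finset Pool.Agent.TH235.PP

namespace Pool.Agent.T6.H19.MK

section spectral

variable {n : Type*} [Fintype n] [DecidableEq n]

/-- the power `ρ ^ z` on the support of the positive semidefinite matrix `ρ` -/
noncomputable def pw {ρ : Matrix n n ℂ} (hρ : ρ.IsHermitian) (z : ℂ) : Matrix n n ℂ :=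
  (hρ.eigenvectorUnitary : Matrix n n ℂ) *
    Matrix.diagonal (fun j => if hρ.eigenvalues j = 0 then 0 else
      Complex.exp (z * (Real.log (hρ.eigenvalues j) : ℂ))) *
    (hρ.eigenvectorUnitary : Matrix n n ℂ)ᴴ

/-- the logarithm of `ρ` on its support -/
noncomputable def lg {ρ : Matrix n n ℂ} (hρ : ρ.IsHermitian) : Matrix n n ℂ :=
  (hρ.eigenvectorUnitary : Matrix n n ℂ) *
    Matrix.diagonal (fun j => ((Real.log (hρ.eigenvalues j) : ℝ) : ℂ)) *
    (hρ.eigenvectorUnitary : Matrix n n ℂ)ᴴ

/-- the von Neumann entropy -/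
noncomputable def vn {ρ : Matrix n n ℂ} (hρ : ρ.IsHermitian) : ℝ :=
  ∑ j, Real.negMulLog (hρ.eigenvalues j)

end spectral

section torus

variable {d L : ℕ} [NeZero L]

/-- the configuration which is `s` on `X` and `w` outside -/
def merge (X : Finset (Site L)) (s : X → Fin d) (w : {v // v ∉ X} → Fin d) : Site L → Fin d :=
  fun v => if h : v ∈ X then s ⟨v, h⟩ else w ⟨v, h⟩

/-- the reduced density matrix of `|Ψ⟩⟨Ψ|` on the sites of `X` -/
noncomputable def rdm (Ψ : (Site L → Fin d) → ℂ) (X : Finset (Site L)) :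
    Matrix (X → Fin d) (X → Fin d) ℂ := fun s t =>
  ∑ w : {v // v ∉ X} → Fin d, Ψ (merge X s w) * (starRingEnd ℂ) (Ψ (merge X t w))

open Classical in
/-- the operator `A` on the sites of `X`, tensored with the identity -/
noncomputable def emb (X : Finset (Site L)) (A : Matrix (X → Fin d) (X → Fin d) ℂ) :
    TorOp d L := fun s t =>
  if ∀ v, v ∉ X → s v = t v then A (fun v => s v) (fun v => t v) else 0

end torus

end Pool.Agent.T6.H19.MK
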