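import Mathlib
import Pool.Agent.T6.H19.MK.Defs

/-! Module B: the powers of a positive semidefinite matrix. -/

set_option autoImplicit false

open scoped BigOperators Matrix ComplexOrder
open Finset Pool.Agent.TH235.PP Pool.Agent.T6.H19.PQ

namespace Pool.Agent.T6.H19.MK

variable {n : Type*} [Fintype n] [DecidableEq n]

namespace B

/-- the matrix which is diagonal in the eigenbasis of `ρ` -/
noncomputable def ud {ρ : Matrix n n ℂ} (hρ : ρ.IsHermitian) (a : n → ℂ) : Matrix n n ℂ :=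
  (hρ.eigenvectorUnitary : Matrix n n ℂ) * Matrix.diagonal a *
    (hρ.eigenvectorUnitary : Matrix n n ℂ)ᴴ

theorem UsU {ρ : Matrix n n ℂ} (hρ : ρ.IsHermitian) :
    (hρ.eigenvectorUnitary : Matrix n n ℂ)ᴴ * (hρ.eigenvectorUnitary : Matrix n n ℂ) = 1 :=
  Unitary.coe_star_mul_self hρ.eigenvectorUnitary

theorem spec {ρ : Matrix n n ℂ} (hρ : ρ.IsHermitian) :
    ud hρ (fun j => ((hρ.eigenvalues j : ℝ) : ℂ)) = ρ := by
  have h3 := hρ.spectral_theorem
  rw [Unitary.conjStarAlgAut_apply] at h3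
  exact h3.symm

theorem ud_mul {ρ : Matrix n n ℂ} (hρ : ρ.IsHermitian) (a b : n → ℂ) :
    ud hρ a * ud hρ b = ud hρ (fun j => a j * b j) := by
  unfold ud
  calc (hρ.eigenvectorUnitary : Matrix n n ℂ) * Matrix.diagonal a *
        (hρ.eigenvectorUnitary : Matrix n n ℂ)ᴴ * ((hρ.eigenvectorUnitary : Matrix n n ℂ) *
        Matrix.diagonal b * (hρ.eigenvectorUnitary : Matrix n n ℂ)ᴴ)
      = (hρ.eigenvectorUnitary : Matrix n n ℂ) * (Matrix.diagonal a *
        ((hρ.eigenvectorUnitary : Matrix n n ℂ)ᴴ * (hρ.eigenvectorUnitary : Matrix n n ℂ)) *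
        Matrix.diagonal b) * (hρ.eigenvectorUnitary : Matrix n n ℂ)ᴴ := by
        simp only [mul_assoc]
    _ = _ := by rw [UsU, mul_one, Matrix.diagonal_mul_diagonal]

theorem ud_star {ρ : Matrix n n ℂ} (hρ : ρ.IsHermitian) (a : n → ℂ) :
    (ud hρ a)ᴴ = ud hρ (fun j => (starRingEnd ℂ) (a j)) := by
  unfold ud
  rw [Matrix.conjTranspose_mul, Matrix.conjTranspose_mul, Matrix.conjTranspose_conjTranspose,
    Matrix.diagonal_conjTranspose, mul_assoc]
  rfl

open scoped Matrix.Norms.L2Operator in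
theorem norm_ud {ρ : Matrix n n ℂ} (hρ : ρ.IsHermitian) (a : n → ℂ) : ‖ud hρ a‖ = ‖a‖ := by
  unfold ud
  have h1 : (hρ.eigenvectorUnitary : Matrix n n ℂ)ᴴ =
    ((star hρ.eigenvectorUnitary : unitary (Matrix n n ℂ)) : Matrix n n ℂ) := rfl
  rw [h1, CStarRing.norm_mul_coe_unitary, CStarRing.norm_coe_unitary_mul,
    Matrix.l2_opNorm_diagonal]

/-- `ud` as a linear map -/
noncomputable def udL {ρ : Matrix n n ℂ} (hρ : ρ.IsHermitian) : (n → ℂ) →ₗ[ℂ] Matrix n n ℂ where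
  toFun := ud hρ
  map_add' a b := by
    unfold ud
    have h1 : (Matrix.diagonal (a + b) : Matrix n n ℂ) = Matrix.diagonal a + Matrix.diagonal b :=
      (Matrix.diagonal_add a b).symm
    rw [h1, mul_add, add_mul]
  map_smul' c a := by
    unfold ud
    rw [Matrix.diagonal_smul, Matrix.mul_smul, Matrix.smul_mul]
    rfl

/-- the eigenvalues of `pw` -/
noncomputable def ev {ρ : Matrix n n ℂ} (hρ : ρ.IsHermitian) (z : ℂ) (j : n) : ℂ :=
  if hρ.eigenvalues j = 0 then 0 else Complex.exp (z * (Real.log (hρ.eigenvalues j) : ℂ))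

theorem pw_eq {ρ : Matrix n n ℂ} (hρ : ρ.IsHermitian) (z : ℂ) : pw hρ z = ud hρ (ev hρ z) := rfl

theorem norm_ev {ρ : Matrix n n ℂ} (hρ : ρ.IsHermitian) (z : ℂ) (j : n) :
    ‖ev hρ z j‖ ≤ Real.exp (z.re * Real.log (hρ.eigenvalues j)) := by
  unfold ev
  split_ifs with h
  · rw [norm_zero]
    exact (Real.exp_pos _).le
  · rw [Complex.norm_exp, Complex.re_mul_ofReal]

theorem deriv_ev {ρ : Matrix n n ℂ} (hρ : ρ.IsHermitian) (z : ℂ) (j : n) :
    HasDerivAt (fun z => ev hρ z j) (ev hρ z j * (Real.log (hρ.eigenvalues j) : ℂ)) z := by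
  unfold ev
  split_ifs with h
  · rw [zero_mul]
    exact hasDerivAt_const _ _
  · have h1 := ((hasDerivAt_id z).mul_const (Real.log (hρ.eigenvalues j) : ℂ)).cexp
    simpa using h1

end B

/-- module B -/
theorem pw_mul {ρ : Matrix n n ℂ} (hρ : ρ.IsHermitian) (z w : ℂ) :
    pw hρ z * pw hρ w = pw hρ (z + w) := by
  rw [B.pw_eq, B.pw_eq, B.pw_eq, B.ud_mul]
  congr 1
  funext j
  unfold B.ev
  split_ifs with h
  · rw [zero_mul]
  · rw [← Complex.exp_add, add_mul]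

theorem pw_star {ρ : Matrix n n ℂ} (hρ : ρ.IsHermitian) (z : ℂ) :
    (pw hρ z)ᴴ = pw hρ ((starRingEnd ℂ) z) := by
  rw [B.pw_eq, B.pw_eq, B.ud_star]
  congr 1
  funext j
  unfold B.ev
  split_ifs with h
  · rw [map_zero]
  · rw [← Complex.exp_conj, map_mul, Complex.conj_ofReal]

theorem pw_one {ρ : Matrix n n ℂ} (hρ : ρ.IsHermitian) (hp : ρ.PosSemidef) : pw hρ 1 = ρ := by
  rw [B.pw_eq]
  conv_rhs => rw [← B.spec hρ]
  congr 1
  funext j
  unfold B.ev
  split_ifs with h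
  · rw [h, Complex.ofReal_zero]
  · have h1 : 0 < hρ.eigenvalues j := lt_of_le_of_ne (hp.eigenvalues_nonneg j) (Ne.symm h)
    rw [one_mul, ← Complex.ofReal_exp, Real.exp_log h1]

open scoped Matrix.Norms.L2Operator in
theorem norm_pw {ρ : Matrix n n ℂ} (hρ : ρ.IsHermitian) (z : ℂ) (hz : z.re = 0) :
    ‖pw hρ z‖ ≤ 1 := by
  rw [B.pw_eq, B.norm_ud, pi_norm_le_iff_of_nonneg zero_le_one]
  intro j
  refine (B.norm_ev hρ z j).trans ?_
  rw [hz, zero_mul, Real.exp_zero]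

open scoped Matrix.Norms.L2Operator in
theorem bdd_pw {ρ : Matrix n n ℂ} (hρ : ρ.IsHermitian) :
    ∃ C : ℝ, ∀ z : ℂ, |z.re| ≤ 1 → ‖pw hρ z‖ ≤ C := by
  refine ⟨∑ j, Real.exp |Real.log (hρ.eigenvalues j)|, fun z hz => ?_⟩
  rw [B.pw_eq, B.norm_ud, pi_norm_le_iff_of_nonneg
    (Finset.sum_nonneg fun j _ => (Real.exp_pos _).le)]
  intro j
  refine (B.norm_ev hρ z j).trans ?_
  refine le_trans ?_ (Finset.single_le_sum (f := fun j => Real.exp |Real.log (hρ.eigenvalues j)|)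
    (fun j _ => (Real.exp_pos _).le) (Finset.mem_univ j))
  rw [Real.exp_le_exp]
  refine (le_abs_self _).trans ?_
  rw [abs_mul]
  calc |z.re| * |Real.log (hρ.eigenvalues j)| ≤ 1 * |Real.log (hρ.eigenvalues j)| := by
        gcongr
    _ = _ := one_mul _

open scoped Matrix.Norms.L2Operator in
theorem diff_pw {ρ : Matrix n n ℂ} (hρ : ρ.IsHermitian) :
    Differentiable ℂ fun z : ℂ => pw hρ z := by
  intro z
  have h1 : HasDerivAt (B.ev hρ) (fun j => B.ev hρ z j * (Real.log (hρ.eigenvalues j) : ℂ)) z :=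
    hasDerivAt_pi.2 fun j => B.deriv_ev hρ z j
  exact ((B.udL hρ).toContinuousLinearMap.hasFDerivAt.comp_hasDerivAt z h1).differentiableAt

open scoped Matrix.Norms.L2Operator in
theorem deriv_pw {ρ : Matrix n n ℂ} (hρ : ρ.IsHermitian) :
    HasDerivAt (fun z : ℂ => pw hρ z) (lg hρ) 0 := by
  have h1 : HasDerivAt (B.ev hρ) (fun j => B.ev hρ 0 j * (Real.log (hρ.eigenvalues j) : ℂ)) 0 :=
    hasDerivAt_pi.2 fun j => B.deriv_ev hρ 0 j
  have h2 : (fun j => B.ev hρ 0 j * (Real.log (hρ.eigenvalues j) : ℂ)) =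
      fun j => ((Real.log (hρ.eigenvalues j) : ℝ) : ℂ) := by
    funext j
    unfold B.ev
    split_ifs with h
    · rw [h, Real.log_zero, zero_mul, Complex.ofReal_zero]
    · rw [zero_mul, Complex.exp_zero, one_mul]
  rw [h2] at h1
  exact (B.udL hρ).toContinuousLinearMap.hasFDerivAt.comp_hasDerivAt 0 h1

theorem trace_lg {ρ : Matrix n n ℂ} (hρ : ρ.IsHermitian) :
    Matrix.trace (lg hρ * ρ) = ((-vn hρ : ℝ) : ℂ) := by
  have h1 : lg hρ * ρ = B.ud hρ (fun j => ((Real.log (hρ.eigenvalues j) : ℝ) : ℂ) *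
      ((hρ.eigenvalues j : ℝ) : ℂ)) := by
    rw [← B.ud_mul, B.spec]
    rfl
  rw [h1]
  unfold B.ud vn
  rw [Matrix.trace_mul_comm, ← mul_assoc, B.UsU, one_mul, Matrix.trace_diagonal]
  push_cast
  rw [← Finset.sum_neg_distrib]
  refine Finset.sum_congr rfl fun j _ => ?_
  rw [Real.negMulLog]
  push_cast
  ring

end Pool.Agent.T6.H19.MK
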