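import Pool.Agent.T6.H19.MK.Defs

/-!
# Markov entropy and PEPS: reduced density matrices (module C, helper24)
-/

set_option autoImplicit false
set_option linter.unusedSectionVars false

open scoped BigOperators Matrix ComplexOrder
open Finset Pool.Agent.TH235.PP Pool.Agent.T6.H19.PQ

namespace Pool.Agent.T6.H19.MK

section

variable {d L : ℕ} [NeZero L]

namespace ModC

/-- restriction to `X` -/
def rs (X : Finset (Site L)) (s : Site L → Fin d) : X → Fin d := fun v => s v

/-- restriction to the complement of `X` -/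
def ro (X : Finset (Site L)) (s : Site L → Fin d) : {v // v ∉ X} → Fin d := fun v => s v

lemma merge_rs_ro (X : Finset (Site L)) (s : Site L → Fin d) : merge X (rs X s) (ro X s) = s := by
  funext v
  unfold merge rs ro
  split_ifs <;> rfl

lemma rs_merge (X : Finset (Site L)) (s : X → Fin d) (w : {v // v ∉ X} → Fin d) :
    rs X (merge X s w) = s := by
  funext v
  simp [merge, rs]

lemma ro_merge (X : Finset (Site L)) (s : X → Fin d) (w : {v // v ∉ X} → Fin d) :
    ro X (merge X s w) = w := by
  funext v
  have := v.2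
  simp [merge, ro, this]

lemma sum_split {M : Type*} [AddCommMonoid M] (X : Finset (Site L)) (f : (Site L → Fin d) → M) :
    ∑ s, f s = ∑ a : X → Fin d, ∑ w : {v // v ∉ X} → Fin d, f (merge X a w) := by
  rw [← Fintype.sum_prod_type' (fun a w => f (merge X a w))]
  refine Fintype.sum_bijective (fun s => (rs X s, ro X s)) ⟨?_, ?_⟩ _ _ ?_
  · intro s t h
    rw [← merge_rs_ro X s, ← merge_rs_ro X t]
    simp only [Prod.mk.injEq] at h
    rw [h.1, h.2]
  · rintro ⟨a, w⟩
    exact ⟨merge X a w, by simp only [rs_merge, ro_merge]⟩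
  · intro s
    simp only [merge_rs_ro]

open Classical in
lemma emb_apply (X : Finset (Site L)) (A : Matrix (X → Fin d) (X → Fin d) ℂ)
    (s t : Site L → Fin d) :
    emb X A s t = if ro X s = ro X t then A (rs X s) (rs X t) else 0 := by
  unfold emb
  have h : (∀ v, v ∉ X → s v = t v) ↔ ro X s = ro X t := by
    constructor
    · intro h
      funext v
      exact h v v.2
    · intro h v hv
      exact congrFun h ⟨v, hv⟩
  by_cases h1 : ro X s = ro X t
  · rw [if_pos h1, if_pos (h.2 h1)]; rfl
  · rw [if_neg h1, if_neg (fun h2 => h1 (h.1 h2))]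

lemma emb_mul (X : Finset (Site L)) (A B : Matrix (X → Fin d) (X → Fin d) ℂ) :
    emb X (A * B) = emb X A * emb X B := by
  classical
  ext s t
  rw [emb_apply, Matrix.mul_apply, Matrix.mul_apply, sum_split X]
  simp only [emb_apply, rs_merge, ro_merge]
  by_cases h : ro X s = ro X t
  · rw [if_pos h]
    refine sum_congr rfl fun a _ => ?_
    rw [sum_eq_single (ro X s)]
    · rw [if_pos rfl, if_pos h]
    · intro w _ hw
      rw [if_neg (Ne.symm hw), zero_mul]
    · intro h'; exact absurd (mem_univ _) h'
  · rw [if_neg h]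
    symm
    refine sum_eq_zero fun a _ => sum_eq_zero fun w _ => ?_
    by_cases h1 : ro X s = w
    · rw [← h1, if_neg h, mul_zero]
    · rw [if_neg h1, zero_mul]

lemma emb_one (X : Finset (Site L)) :
    emb X (1 : Matrix (X → Fin d) (X → Fin d) ℂ) = 1 := by
  classical
  ext s t
  rw [emb_apply]
  by_cases h : s = t
  · subst h
    rw [if_pos rfl, Matrix.one_apply_eq, Matrix.one_apply_eq]
  · rw [Matrix.one_apply_ne h]
    by_cases h1 : ro X s = ro X t
    · rw [if_pos h1, Matrix.one_apply_ne]
      intro h2
      apply h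
      rw [← merge_rs_ro X s, ← merge_rs_ro X t, h1, h2]
    · rw [if_neg h1]

lemma emb_add (X : Finset (Site L)) (A B : Matrix (X → Fin d) (X → Fin d) ℂ) :
    emb X (A + B) = emb X A + emb X B := by
  classical
  ext s t
  rw [Matrix.add_apply, emb_apply, emb_apply, emb_apply, Matrix.add_apply]
  split_ifs <;> simp

lemma emb_smul (X : Finset (Site L)) (c : ℂ) (A : Matrix (X → Fin d) (X → Fin d) ℂ) :
    emb X (c • A) = c • emb X A := by
  classical
  ext s t
  rw [Matrix.smul_apply, emb_apply, emb_apply, Matrix.smul_apply]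
  split_ifs <;> simp

lemma emb_star (X : Finset (Site L)) (A : Matrix (X → Fin d) (X → Fin d) ℂ) :
    emb X (star A) = star (emb X A) := by
  classical
  ext s t
  rw [Matrix.star_apply, emb_apply, emb_apply, Matrix.star_apply]
  by_cases h : ro X s = ro X t
  · rw [if_pos h, if_pos h.symm]
  · rw [if_neg h, if_neg (Ne.symm h), star_zero]

/-- `emb` as a homomorphism -/
noncomputable def embH (X : Finset (Site L)) :
    Matrix (X → Fin d) (X → Fin d) ℂ →⋆ₐ[ℂ] TorOp d L where
  toFun := emb X
  map_one' := emb_one X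
  map_mul' := emb_mul X
  map_zero' := by
    have := emb_smul X 0 (0 : Matrix (X → Fin d) (X → Fin d) ℂ)
    simpa using this
  map_add' := emb_add X
  commutes' := fun c => by
    rw [Algebra.algebraMap_eq_smul_one, emb_smul, emb_one, ← Algebra.algebraMap_eq_smul_one]
  map_star' := emb_star X

end ModC

open ModC

/-- module C -/
theorem rdm_psd (Ψ : (Site L → Fin d) → ℂ) (X : Finset (Site L)) : (rdm Ψ X).PosSemidef := by
  have h : rdm Ψ X = (Matrix.of fun (s : X → Fin d) (w : {v // v ∉ X} → Fin d) =>
      Ψ (merge X s w)) * (Matrix.of fun (s : X → Fin d) (w : {v // v ∉ X} → Fin d) =>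
      Ψ (merge X s w))ᴴ := by
    ext s t
    rw [Matrix.mul_apply]
    rfl
  rw [h]
  exact Matrix.posSemidef_self_mul_conjTranspose _

open scoped Matrix.Norms.L2Operator in
/-- `emb` as a homomorphism -/
theorem exists_embH (X : Finset (Site L)) :
    ∃ f : Matrix (X → Fin d) (X → Fin d) ℂ →⋆ₐ[ℂ] TorOp d L, ∀ A, f A = emb X A :=
  ⟨embH X, fun _ => rfl⟩

open scoped Matrix.Norms.L2Operator in
theorem norm_emb (X : Finset (Site L)) (A : Matrix (X → Fin d) (X → Fin d) ℂ) :
    ‖emb X A‖ ≤ ‖A‖ :=
  NonUnitalStarAlgHom.norm_apply_le (embH X) A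

theorem sup_emb (X : Finset (Site L)) (A : Matrix (X → Fin d) (X → Fin d) ℂ) :
    Sup (X : Set (Site L)) (emb X A) := by
  classical
  refine ⟨?_, ?_⟩
  · rintro s t ⟨v, hv, hne⟩
    unfold emb
    rw [if_neg]
    intro h
    exact hne (h v (by simpa using hv))
  · intro s t s' t' h1 h2 h3
    have e1 : ∀ v, v ∉ X → s v = t v := fun v hv => h1 v (by simpa using hv)
    have e2 : ∀ v, v ∉ X → s' v = t' v := fun v hv => h2 v (by simpa using hv)
    unfold emb
    rw [if_pos e1, if_pos e2]
    congr 1
    · funext v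
      exact (h3 v (by simp)).1
    · funext v
      exact (h3 v (by simp)).2

theorem ip_emb (Ψ : (Site L → Fin d) → ℂ) (X : Finset (Site L))
    (A : Matrix (X → Fin d) (X → Fin d) ℂ) :
    ip Ψ (emb X A *ᵥ Ψ) = Matrix.trace (A * rdm Ψ X) := by
  classical
  unfold ip
  rw [sum_split X]
  rw [Matrix.trace]
  refine sum_congr rfl fun a _ => ?_
  rw [Matrix.diag_apply, Matrix.mul_apply]
  have e1 : ∀ w : {v // v ∉ X} → Fin d, (emb X A *ᵥ Ψ) (merge X a w) =
      ∑ b : X → Fin d, A a b * Ψ (merge X b w) := by
    intro w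
    rw [Matrix.mulVec, dotProduct, sum_split X]
    refine sum_congr rfl fun b _ => ?_
    simp only [emb_apply, rs_merge, ro_merge]
    rw [sum_eq_single w]
    · rw [if_pos rfl]
    · intro w' _ hw
      rw [if_neg (Ne.symm hw), zero_mul]
    · intro h'; exact absurd (mem_univ _) h'
  simp only [e1, mul_sum]
  rw [sum_comm]
  refine sum_congr rfl fun b _ => ?_
  unfold rdm
  rw [mul_sum]
  refine sum_congr rfl fun w _ => ?_
  ring

namespace ModC

lemma rdm_step (Ψ : (Site L → Fin d) → ℂ) (B : Finset (Site L)) (v : Site L) (hv : v ∉ B)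
    (s t : Site L → Fin d) :
    rdm Ψ B (rs B s) (rs B t) = ∑ a : Fin d, rdm Ψ (insert v B)
      (rs (insert v B) (Function.update s v a)) (rs (insert v B) (Function.update t v a)) := by
  classical
  unfold rdm
  rw [← Fintype.sum_prod_type' (fun (a : Fin d) (w : {u // u ∉ insert v B} → Fin d) =>
    Ψ (merge (insert v B) (rs (insert v B) (Function.update s v a)) w) *
      (starRingEnd ℂ) (Ψ (merge (insert v B) (rs (insert v B) (Function.update t v a)) w)))]
  refine Fintype.sum_bijective (fun w : {u // u ∉ B} → Fin d =>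
    (w ⟨v, hv⟩, fun u : {u // u ∉ insert v B} => w ⟨u, fun h => u.2 (mem_insert_of_mem h)⟩))
    ⟨?_, ?_⟩ _ _ ?_
  · intro w w' h
    simp only [Prod.mk.injEq] at h
    funext ⟨u, hu⟩
    by_cases huv : u = v
    · subst huv; exact h.1
    · exact congrFun h.2 ⟨u, by simp [huv, hu]⟩
  · rintro ⟨a, w⟩
    refine ⟨fun u => if h : (u : Site L) = v then a else w ⟨u, by simp [h, u.2]⟩, ?_⟩
    ext1
    · simp
    · funext u
      have : (u : Site L) ≠ v := fun h => u.2 (by simp [h])
      simp [this]
  · intro w
    have e : ∀ s : Site L → Fin d, merge B (rs B s) w =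
        merge (insert v B) (rs (insert v B) (Function.update s v (w ⟨v, hv⟩)))
          (fun u : {u // u ∉ insert v B} => w ⟨u, fun h => u.2 (mem_insert_of_mem h)⟩) := by
      intro s
      funext u
      unfold merge rs
      by_cases h1 : u = v
      · subst h1
        rw [dif_neg hv, dif_pos (mem_insert_self _ _)]
        simp
      · by_cases h2 : u ∈ B
        · rw [dif_pos h2, dif_pos (mem_insert_of_mem h2)]
          simp [h1]
        · rw [dif_neg h2, dif_neg (by simp [h1, h2])]
    simp only [e]

lemma sup_upd {S : Set (Site L)} {v : Site L} (hS : v ∉ S) {Z : TorOp d L} (hZ : Sup S Z)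
    (s t : Site L → Fin d) (h : s v = t v) (a : Fin d) :
    Z (Function.update t v a) (Function.update s v a) = Z t s := by
  by_cases h1 : ∀ u, u ∉ S → t u = s u
  · refine hZ.2 _ _ _ _ ?_ h1 ?_
    · intro u hu
      by_cases huv : u = v
      · subst huv; simp
      · simp [huv, h1 u hu]
    · intro u hu
      have huv : u ≠ v := fun e => hS (e ▸ hu)
      simp [huv]
  · push Not at h1
    obtain ⟨u, hu, hne⟩ := h1
    have huv : u ≠ v := fun e => hne (by rw [e]; exact h.symm)
    rw [hZ.1 t s ⟨u, hu, hne⟩, hZ.1 _ _ ⟨u, hu, by simpa [huv] using hne⟩]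

end ModC

theorem trace_step (Ψ : (Site L → Fin d) → ℂ) (B : Finset (Site L)) (v : Site L) (hv : v ∉ B)
    (S : Set (Site L)) (hS : v ∉ S) (Z : TorOp d L) (hZ : Sup S Z) :
    (d : ℂ) * Matrix.trace (emb (insert v B) (rdm Ψ (insert v B)) * Z) =
      Matrix.trace (emb B (rdm Ψ B) * Z) := by
  classical
  -- the sum over the pairs of configurations which agree at `v`
  set G : (Site L → Fin d) → (Site L → Fin d) → ℂ := fun s t =>
    emb (insert v B) (rdm Ψ (insert v B)) s t * Z t s with hG
  have hG0 : ∀ s t, s v ≠ t v → G s t = 0 := by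
    intro s t h
    rw [hG]
    simp only
    rw [hZ.1 t s ⟨v, hS, Ne.symm h⟩, mul_zero]
  have e1 : Matrix.trace (emb (insert v B) (rdm Ψ (insert v B)) * Z) = ∑ s, ∑ t, G s t := by
    rw [Matrix.trace]
    refine sum_congr rfl fun s _ => ?_
    rw [Matrix.diag_apply, Matrix.mul_apply]
  have e2 : Matrix.trace (emb B (rdm Ψ B) * Z) = ∑ s, ∑ t, ∑ a : Fin d,
      if s v = t v then G (Function.update s v a) (Function.update t v a) else 0 := by
    rw [Matrix.trace]
    refine sum_congr rfl fun s _ => ?_
    rw [Matrix.diag_apply, Matrix.mul_apply]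
    refine sum_congr rfl fun t _ => ?_
    by_cases hst : s v = t v
    · simp only [if_pos hst]
      rw [emb_apply]
      by_cases h : ro B s = ro B t
      · rw [if_pos h, rdm_step Ψ B v hv, sum_mul]
        refine sum_congr rfl fun a _ => ?_
        rw [hG]
        simp only
        rw [sup_upd hS hZ s t hst a, emb_apply, if_pos]
        funext ⟨u, hu⟩
        have h1 : u ≠ v := fun e => hu (by simp [e])
        have h2 : u ∉ B := fun e => hu (mem_insert_of_mem e)
        have := congrFun h ⟨u, h2⟩
        simpa [ro, h1] using this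
      · rw [if_neg h, zero_mul]
        symm
        refine sum_eq_zero fun a _ => ?_
        rw [hG]
        simp only
        rw [emb_apply, if_neg, zero_mul]
        intro h'
        apply h
        funext ⟨u, hu⟩
        by_cases huv : u = v
        · subst huv; exact hst
        · have := congrFun h' ⟨u, by simp [huv, hu]⟩
          simpa [ro, huv] using this
    · simp only [if_neg hst, sum_const_zero]
      rw [hZ.1 t s ⟨v, hS, Ne.symm hst⟩, mul_zero]
  rw [e1, e2]
  -- the involution which exchanges the values at `v`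
  have e3 : ∑ s : Site L → Fin d, ∑ t : Site L → Fin d, ∑ a : Fin d,
      (if s v = t v then G (Function.update s v a) (Function.update t v a) else 0) =
      ∑ p ∈ (univ : Finset ((Site L → Fin d) × (Site L → Fin d) × Fin d)).filter
        (fun p => p.1 v = p.2.1 v), G (Function.update p.1 v p.2.2)
          (Function.update p.2.1 v p.2.2) := by
    rw [sum_filter, ← univ_product_univ, sum_product]
    refine sum_congr rfl fun s _ => ?_
    rw [← univ_product_univ, sum_product]
  have e4 : (d : ℂ) * ∑ s : Site L → Fin d, ∑ t : Site L → Fin d, G s t =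
      ∑ p ∈ (univ : Finset ((Site L → Fin d) × (Site L → Fin d) × Fin d)).filter
        (fun p => p.1 v = p.2.1 v), G p.1 p.2.1 := by
    rw [sum_filter, ← univ_product_univ, sum_product, mul_sum]
    refine sum_congr rfl fun s _ => ?_
    rw [← univ_product_univ, sum_product, mul_sum]
    refine sum_congr rfl fun t _ => ?_
    simp only
    by_cases hst : s v = t v
    · simp [hst]
    · simp [hst, hG0 s t hst]
  rw [e3, e4]
  refine sum_nbij' (fun p => (Function.update p.1 v p.2.2, Function.update p.2.1 v p.2.2, p.1 v))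
    (fun p => (Function.update p.1 v p.2.2, Function.update p.2.1 v p.2.2, p.1 v)) ?_ ?_ ?_ ?_ ?_
  · intro p hp
    simp
  · intro p hp
    simp
  · rintro ⟨s, t, a⟩ hp
    simp only [mem_filter, mem_univ, true_and] at hp
    simp [hp]
  · rintro ⟨s, t, a⟩ hp
    simp only [mem_filter, mem_univ, true_and] at hp
    simp [hp]
  · rintro ⟨s, t, a⟩ hp
    simp only [mem_filter, mem_univ, true_and] at hp
    have hu : Function.update s v (t v) = s := by rw [← hp, Function.update_eq_self]
    simp [hp, hu]

end

end Pool.Agent.T6.H19.MK
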