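import Mathlib
import Pool.Agent.T6.H19.MK.Defs

/-! Module A: a bound on a line from the derivative at the origin. -/

set_option autoImplicit false

open scoped BigOperators Matrix ComplexOrder
open Finset Pool.Agent.TH235.PP Pool.Agent.T6.H19.PQ

namespace Pool.Agent.T6.H19.MK

/-- module A -/
theorem strip_bound (g : ℂ → ℂ) (hg : Differentiable ℂ g) (B : ℝ)
    (hB : ∀ z : ℂ, 0 ≤ z.re → z.re ≤ 1 → ‖g z‖ ≤ B) (h0 : ∀ t : ℝ, ‖g (t * Complex.I)‖ ≤ 1)
    (hg0 : g 0 = 1) (M : ℝ) (hd : HasDerivAt g ((-(M / 2) : ℝ) : ℂ) 0) (η : ℝ) (hη : 0 < η) :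
    ∃ t : ℝ, Real.exp (-(M / 2) - η) ≤ ‖g (1 + t * Complex.I)‖ := by
  by_contra hcon
  push Not at hcon
  -- the three lines theorem
  have h1 : ∀ x : ℝ, 0 ≤ x → x ≤ 1 → (g x).re ≤ Real.exp (x * (-(M / 2) - η)) := by
    intro x hx0 hx1
    have h2 := Complex.HadamardThreeLines.norm_le_interp_of_mem_verticalClosedStrip₀₁' g
      (z := (x : ℂ)) (a := 1) (b := Real.exp (-(M / 2) - η)) ?_ hg.diffContOnCl ?_ ?_ ?_
    · rw [Complex.ofReal_re, Real.one_rpow, one_mul] at h2
      refine (Complex.re_le_norm _).trans (h2.trans_eq ?_)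
      rw [mul_comm, Real.exp_mul]
    · simp only [Complex.HadamardThreeLines.verticalClosedStrip, Set.mem_preimage,
        Complex.ofReal_re, Set.mem_Icc]
      exact ⟨hx0, hx1⟩
    · refine ⟨B, ?_⟩
      rintro _ ⟨z, hz, rfl⟩
      exact hB z hz.1 hz.2
    · intro z hz
      have : z = ((z.im : ℝ) : ℂ) * Complex.I := by
        apply Complex.ext
        · simpa using hz
        · simp
      rw [this]
      exact h0 _
    · intro z hz
      have : z = 1 + ((z.im : ℝ) : ℂ) * Complex.I := by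
        apply Complex.ext
        · simpa using hz
        · simp
      rw [this]
      exact (hcon _).le
  -- the derivative at the origin
  have h3 : HasDerivAt (fun x : ℝ => (g x).re - Real.exp (x * (-(M / 2) - η))) η 0 := by
    have h4 : HasDerivAt (fun x : ℝ => (g x).re) (-(M / 2)) 0 := by
      have h5 : HasDerivAt g ((-(M / 2) : ℝ) : ℂ) ((0 : ℝ) : ℂ) := by
        rw [Complex.ofReal_zero]
        exact hd
      have h6 := h5.real_of_complex
      rwa [Complex.ofReal_re] at h6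
    have h5 : HasDerivAt (fun x : ℝ => Real.exp (x * (-(M / 2) - η))) (-(M / 2) - η) 0 := by
      have h6 := ((hasDerivAt_id (0 : ℝ)).mul_const (-(M / 2) - η)).exp
      simpa using h6
    have h6 := h4.sub h5
    have e1 : -(M / 2) - (-(M / 2) - η) = η := by ring
    rw [e1] at h6
    exact h6
  have h7 := h3.tendsto_slope
  have h8 : ∀ᶠ x in nhdsWithin (0 : ℝ) {0}ᶜ, 0 <
      slope (fun x : ℝ => (g x).re - Real.exp (x * (-(M / 2) - η))) 0 x :=
    h7.eventually (lt_mem_nhds hη)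
  have h9 : ∀ᶠ x in nhdsWithin (0 : ℝ) (Set.Ioi 0), 0 <
      slope (fun x : ℝ => (g x).re - Real.exp (x * (-(M / 2) - η))) 0 x := by
    refine Filter.Eventually.filter_mono (nhdsWithin_mono _ ?_) h8
    intro x hx
    exact ne_of_gt hx
  have h10 : ∀ᶠ x in nhdsWithin (0 : ℝ) (Set.Ioi 0), x ∈ Set.Ioc (0 : ℝ) 1 :=
    Ioc_mem_nhdsGT one_pos
  obtain ⟨x, hx1, hx2⟩ := (h9.and h10).exists
  have h11 := h1 x hx2.1.le hx2.2
  rw [slope_def_field] at hx1
  have h12 : (g (0 : ℝ)).re = 1 := by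
    rw [Complex.ofReal_zero, hg0]
    rfl
  have h13 : (0 : ℝ) < x - 0 := by linarith [hx2.1]
  have h14 := (div_pos_iff_of_pos_right h13).1 hx1
  rw [h12] at h14
  simp only [zero_mul, Real.exp_zero] at h14
  linarith

end Pool.Agent.T6.H19.MK
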