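import Pool.Agent.T6.H19.MK.A
import Pool.Agent.T6.H19.MK.B
import Pool.Agent.T6.H19.MK.C
import Pool.Agent.T6.H19.PQ.Chain

/-!
# Sequential products of local operators from the three lines theorem
-/

set_option autoImplicit false
set_option linter.unusedSectionVars false

open scoped BigOperators Matrix ComplexOrder
open Finset Pool.Agent.TH235.PP Pool.Agent.T6.H19.PQ

namespace Pool.Agent.T6.H19.MK

section general

open scoped Matrix.Norms.L2Operator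

variable {n : Type*} [Fintype n] [DecidableEq n]

theorem ip_adj (A : Matrix n n ℂ) (x y : n → ℂ) : ip x (A *ᵥ y) = ip (Aᴴ *ᵥ x) y := by
  have e3 : ∀ u v : n → ℂ, ip u v = star u ⬝ᵥ v := fun u v => rfl
  rw [e3, e3, Matrix.star_mulVec, Matrix.dotProduct_mulVec, Matrix.conjTranspose_conjTranspose]

/-- the linear functional `A ↦ ⟨Ψ, A Ψ⟩` -/
noncomputable def ev (Ψ : n → ℂ) : Matrix n n ℂ →L[ℂ] ℂ :=
  LinearMap.toContinuousLinearMap
    { toFun := fun A => ip Ψ (A *ᵥ Ψ)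
      map_add' := fun A B => by rw [Matrix.add_mulVec, ip_add_right]
      map_smul' := fun c A => by rw [Matrix.smul_mulVec, ip_smul_right]; rfl }

theorem ev_apply (Ψ : n → ℂ) (A : Matrix n n ℂ) : ev Ψ A = ip Ψ (A *ᵥ Ψ) := rfl

theorem op_diff : ∀ (N : ℕ) (T : Fin N → ℂ → Matrix n n ℂ), (∀ i, Differentiable ℂ (T i)) →
    Differentiable ℂ fun z => op fun i => T i z := by
  intro N
  induction N with
  | zero =>
    intro T _
    simp only [op_zero]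
    exact differentiable_const _
  | succ N ih =>
    intro T hT
    simp only [op_succ]
    exact (hT 0).mul (ih (fun i => T i.succ) fun i => hT i.succ)

theorem op_deriv (Ψ : n → ℂ) : ∀ (N : ℕ) (T : Fin N → ℂ → Matrix n n ℂ)
    (T' : Fin N → Matrix n n ℂ), (∀ i, HasDerivAt (T i) (T' i) 0) →
    (∀ i, T i 0 *ᵥ Ψ = Ψ) → (∀ i, (T i 0)ᴴ *ᵥ Ψ = Ψ) →
    (op fun i => T i 0) *ᵥ Ψ = Ψ ∧ ∃ W', HasDerivAt (fun z => op fun i => T i z) W' 0 ∧
      ip Ψ (W' *ᵥ Ψ) = ∑ i, ip Ψ (T' i *ᵥ Ψ) := by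
  intro N
  induction N with
  | zero =>
    intro T T' _ _ _
    refine ⟨by simp [op_zero], 0, ?_, ?_⟩
    · simp only [op_zero]
      exact hasDerivAt_const _ _
    · rw [Matrix.zero_mulVec]
      simp [ip]
  | succ N ih =>
    intro T T' hT h1 h2
    obtain ⟨k1, W', k2, k3⟩ := ih (fun i => T i.succ) (fun i => T' i.succ) (fun i => hT i.succ)
      (fun i => h1 i.succ) (fun i => h2 i.succ)
    refine ⟨?_, T' 0 * (op fun i : Fin N => T i.succ 0) + T 0 0 * W', ?_, ?_⟩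
    · rw [op_succ, ← Matrix.mulVec_mulVec, k1, h1 0]
    · simp only [op_succ]
      exact (hT 0).mul k2
    · rw [Matrix.add_mulVec, ip_add_right, ← Matrix.mulVec_mulVec, k1, ← Matrix.mulVec_mulVec,
        ip_adj (T 0 0), h2 0, k3, Fin.sum_univ_succ]

theorem norm_op_le' {N : ℕ} [Nonempty n] (T : Fin N → Matrix n n ℂ) (w : Fin N → ℝ)
    (h : ∀ i, ‖T i‖ ≤ w i) : ‖op T‖ ≤ ∏ i, w i := by
  have hnt : Nontrivial (Matrix n n ℂ) := inferInstance
  exact norm_op_le (R := Matrix n n ℂ) T w h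

/-- the squared Hilbert–Schmidt norm -/
noncomputable def hs (W : Matrix n n ℂ) : ℝ := ∑ t, normSq fun s => W s t

theorem trace_hs (W : Matrix n n ℂ) : Matrix.trace (W * Wᴴ) = ((hs W : ℝ) : ℂ) := by
  unfold hs normSq Matrix.trace
  simp only [Matrix.diag_apply, Matrix.mul_apply, Matrix.conjTranspose_apply]
  rw [Finset.sum_comm]
  push_cast
  refine Finset.sum_congr rfl fun t _ => Finset.sum_congr rfl fun s _ => ?_
  rw [RCLike.star_def, RCLike.mul_conj]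
  norm_num

theorem hs_mul_le (P W : Matrix n n ℂ) (hP : ‖P‖ ≤ 1) : hs (P * W) ≤ hs W := by
  unfold hs
  refine Finset.sum_le_sum fun t _ => ?_
  have h1 : (fun s => (P * W) s t) = P *ᵥ fun s => W s t := by
    funext s
    rw [Matrix.mul_apply]
    rfl
  rw [h1, ← nr_sq, ← nr_sq]
  refine pow_le_pow_left₀ (nr_nonneg _) ((nr_mulVec _ _).trans ?_) 2
  calc ‖P‖ * nr (fun s => W s t) ≤ 1 * nr (fun s => W s t) :=
        mul_le_mul_of_nonneg_right hP (nr_nonneg _)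
    _ = _ := one_mul _

theorem hs_one : hs (1 : Matrix n n ℂ) = Fintype.card n := by
  have h1 := trace_hs (1 : Matrix n n ℂ)
  rw [Matrix.conjTranspose_one, mul_one, Matrix.trace_one] at h1
  exact_mod_cast h1.symm

theorem col_eq (W : Matrix n n ℂ) (t : n) : W *ᵥ Pi.single t 1 = fun s => W s t := by
  funext s
  simp

/-- Cauchy–Schwarz -/
theorem ev_le (Ψ : n → ℂ) (hΨ : normSq Ψ = 1) (W : Matrix n n ℂ) :
    ‖ip Ψ (W *ᵥ Ψ)‖ ^ 2 ≤ ∑ t, ‖ip Ψ fun s => W s t‖ ^ 2 := by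
  have h1 : ip Ψ (W *ᵥ Ψ) = ∑ t, Ψ t * ip Ψ fun s => W s t := by
    unfold ip Matrix.mulVec dotProduct
    simp only [Finset.mul_sum]
    rw [Finset.sum_comm]
    refine Finset.sum_congr rfl fun t _ => Finset.sum_congr rfl fun s _ => ?_
    ring
  rw [h1]
  have h2 : ‖∑ t, Ψ t * ip Ψ fun s => W s t‖ ≤ ∑ t, ‖Ψ t‖ * ‖ip Ψ fun s => W s t‖ := by
    refine (norm_sum_le _ _).trans (le_of_eq ?_)
    exact Finset.sum_congr rfl fun t _ => norm_mul _ _
  have h3 := Finset.sum_mul_sq_le_sq_mul_sq (univ : Finset n) (fun t => ‖Ψ t‖)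
    (fun t => ‖ip Ψ fun s => W s t‖)
  have h4 : ∑ t, ‖Ψ t‖ ^ 2 = 1 := hΨ
  rw [h4, one_mul] at h3
  exact (pow_le_pow_left₀ (norm_nonneg _) h2 2).trans h3

/-- a good column -/
theorem good_col (Ψ : n → ℂ) (hΨ : normSq Ψ = 1) (W : Matrix n n ℂ) (hW : hs W ≤ 1) (θ : ℝ)
    (hθ : 0 < θ) (hg : θ ≤ ‖ip Ψ (W *ᵥ Ψ)‖ ^ 2) :
    ∃ t, 0 < normSq (W *ᵥ Pi.single t 1) ∧
      θ * normSq (W *ᵥ Pi.single t 1) ≤ ‖ip Ψ (W *ᵥ Pi.single t 1)‖ ^ 2 := by
  simp only [col_eq]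
  refine Pool.Agent.TH235.PP.avg (fun t => ‖ip Ψ fun s => W s t‖ ^ 2)
    (fun t => normSq fun s => W s t) θ θ (fun t => ?_) (fun t ht => ?_) hθ
    (hg.trans (ev_le Ψ hΨ W)) ?_
  · exact Finset.sum_nonneg fun _ _ => by positivity
  · have h1 : nr (fun s => W s t) = 0 := by
      have := nr_sq (fun s => W s t)
      rw [ht] at this
      exact pow_eq_zero_iff (two_ne_zero) |>.1 this
    have h2 := ip_le Ψ (fun s => W s t)
    rw [h1, mul_zero] at h2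
    have h3 := le_antisymm h2 (norm_nonneg _)
    rw [h3]
    norm_num
  · calc θ * ∑ t, normSq (fun s => W s t) ≤ θ * 1 := mul_le_mul_of_nonneg_left hW hθ.le
      _ = θ := mul_one _

end general

section powers

open scoped Matrix.Norms.L2Operator

variable {n : Type*} [Fintype n] [DecidableEq n]

theorem pw_zero_mul {ρ : Matrix n n ℂ} (hρ : ρ.IsHermitian) (hp : ρ.PosSemidef) :
    pw hρ 0 * ρ = ρ := by
  have h := pw_mul hρ 0 1
  rw [zero_add, pw_one hρ hp] at h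
  exact h

theorem half_re (z : ℂ) : (z / 2).re = z.re / 2 := by simp

theorem half_im (z : ℂ) : (z / 2).im = z.im / 2 := by simp

theorem pw_conj_mul {ρ : Matrix n n ℂ} (hρ : ρ.IsHermitian) (hp : ρ.PosSemidef) (z : ℂ)
    (hz : z.re = 1) : (pw hρ (z / 2))ᴴ * pw hρ (z / 2) = ρ := by
  have h1 : (starRingEnd ℂ) (z / 2) + z / 2 = 1 := by
    apply Complex.ext
    · rw [Complex.add_re, Complex.conj_re, half_re, hz, Complex.one_re]
      norm_num
    · rw [Complex.add_im, Complex.conj_im, Complex.one_im]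
      ring
  rw [pw_star, pw_mul, h1, pw_one hρ hp]

theorem pw_conj_mid {ρ : Matrix n n ℂ} (hρ : ρ.IsHermitian) (hp : ρ.PosSemidef) (z : ℂ)
    (hz : z.re = 1) : (pw hρ (-z / 2))ᴴ * (ρ * pw hρ (-z / 2)) = pw hρ 0 := by
  have h0 : ρ * pw hρ (-z / 2) = pw hρ (1 + -z / 2) := by
    have h := pw_mul hρ 1 (-z / 2)
    rw [pw_one hρ hp] at h
    exact h
  have h1 : (starRingEnd ℂ) (-z / 2) + (1 + -z / 2) = 0 := by
    apply Complex.ext
    · rw [Complex.add_re, Complex.conj_re, Complex.add_re, half_re, Complex.neg_re, hz,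
        Complex.one_re, Complex.zero_re]
      norm_num
    · rw [Complex.add_im, Complex.conj_im, Complex.add_im, Complex.one_im, Complex.zero_im]
      ring
  rw [h0, pw_star, pw_mul, h1]

theorem diff_half {ρ : Matrix n n ℂ} (hρ : ρ.IsHermitian) (a : ℂ) :
    Differentiable ℂ fun z : ℂ => pw hρ (a * z / 2) := by
  have h1 : Differentiable ℂ fun z : ℂ => a * z / 2 := by fun_prop
  exact (diff_pw hρ).comp h1

theorem deriv_half {ρ : Matrix n n ℂ} (hρ : ρ.IsHermitian) (a : ℂ) :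
    HasDerivAt (fun z : ℂ => pw hρ (a * z / 2)) ((a / 2) • lg hρ) 0 := by
  have h0 : HasDerivAt (fun z : ℂ => a * z / 2) (a / 2) 0 := by
    have := ((hasDerivAt_id (0 : ℂ)).const_mul a).div_const 2
    simpa using this
  have hd : HasDerivAt (fun z : ℂ => pw hρ z) (lg hρ) (a * 0 / 2) := by
    rw [mul_zero, zero_div]
    exact deriv_pw hρ
  exact hd.scomp (0 : ℂ) h0

end powers

section torus

open scoped Matrix.Norms.L2Operator

variable {d L : ℕ} [NeZero L]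

theorem emb_mul (X : Finset (Site L)) (A C : Matrix (X → Fin d) (X → Fin d) ℂ) :
    emb X (A * C) = emb X A * emb X C := by
  obtain ⟨f, hf⟩ := exists_embH (d := d) X
  rw [← hf, ← hf, ← hf, map_mul]

theorem emb_star (X : Finset (Site L)) (A : Matrix (X → Fin d) (X → Fin d) ℂ) :
    (emb X A)ᴴ = emb X Aᴴ := by
  obtain ⟨f, hf⟩ := exists_embH (d := d) X
  rw [← hf, ← hf, ← Matrix.star_eq_conjTranspose, ← Matrix.star_eq_conjTranspose, map_star]

theorem emb_one (X : Finset (Site L)) : emb X (1 : Matrix (X → Fin d) (X → Fin d) ℂ) = 1 := by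
  obtain ⟨f, hf⟩ := exists_embH (d := d) X
  rw [← hf, map_one]

theorem emb_deriv (X : Finset (Site L)) (f : ℂ → Matrix (X → Fin d) (X → Fin d) ℂ)
    (f' : Matrix (X → Fin d) (X → Fin d) ℂ) (z : ℂ) (h : HasDerivAt f f' z) :
    HasDerivAt (fun z => (emb X (f z) : TorOp d L)) (emb X f') z := by
  obtain ⟨F, hF⟩ := exists_embH (d := d) X
  have h1 := (LinearMap.toContinuousLinearMap F.toAlgHom.toLinearMap).hasFDerivAt.comp_hasDerivAt z h
  have h2 : ∀ A, (LinearMap.toContinuousLinearMap F.toAlgHom.toLinearMap) A = emb X A := hF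
  rw [h2] at h1
  have h3 : (⇑(LinearMap.toContinuousLinearMap F.toAlgHom.toLinearMap) ∘ f) =
      fun z => (emb X (f z) : TorOp d L) := funext fun z => h2 (f z)
  rw [h3] at h1
  exact h1

theorem emb_diff (X : Finset (Site L)) (f : ℂ → Matrix (X → Fin d) (X → Fin d) ℂ)
    (h : Differentiable ℂ f) : Differentiable ℂ fun z => (emb X (f z) : TorOp d L) :=
  fun z => (emb_deriv X f _ z (h z).hasDerivAt).differentiableAt

theorem fix_of_proj {n : Type*} [Fintype n] [DecidableEq n] (P : Matrix n n ℂ) (h1 : Pᴴ = P)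
    (h2 : P * P = P) (Ψ : n → ℂ) (hΨ : normSq Ψ = 1) (h3 : ip Ψ (P *ᵥ Ψ) = 1) : P *ᵥ Ψ = Ψ := by
  have h4 : ip (P *ᵥ Ψ) (P *ᵥ Ψ) = 1 := by
    have := ip_adj P (P *ᵥ Ψ) Ψ
    rw [h1, Matrix.mulVec_mulVec, h2] at this
    rw [this]
    have h5 := ip_adj P Ψ Ψ
    rw [h1] at h5
    rw [← h5, h3]
  have h5 : ip (P *ᵥ Ψ) Ψ = 1 := by
    have h5 := ip_adj P Ψ Ψ
    rw [h1] at h5
    rw [← h5, h3]
  have h6 : ip Ψ Ψ = 1 := ip_self_one Ψ hΨ
  have h7 : ip (P *ᵥ Ψ - Ψ) (P *ᵥ Ψ - Ψ) = 0 := by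
    rw [ip_sub_right, ip_sub_left, ip_sub_left, h4, h5, h6, h3]
    ring
  rw [ip_self] at h7
  have h8 : nr (P *ᵥ Ψ - Ψ) ^ 2 = 0 := by exact_mod_cast h7
  have h9 : nr (P *ᵥ Ψ - Ψ) = 0 := pow_eq_zero_iff (two_ne_zero) |>.1 h8
  have h10 : (WithLp.toLp 2 (P *ᵥ Ψ - Ψ) : EuclideanSpace ℂ n) = 0 := norm_eq_zero.1 h9
  have h11 : P *ᵥ Ψ - Ψ = 0 := by
    funext s
    exact congrFun (congrArg WithLp.ofLp h10) s
  exact sub_eq_zero.1 h11

theorem trace_rdm (Ψ : (Site L → Fin d) → ℂ) (hΨ : normSq Ψ = 1) (X : Finset (Site L)) :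
    Matrix.trace (rdm Ψ X) = 1 := by
  have h1 := ip_emb Ψ X 1
  rw [emb_one, Matrix.one_mulVec, one_mul, ip_self_one Ψ hΨ] at h1
  exact h1.symm

theorem emb_pw_zero (Ψ : (Site L → Fin d) → ℂ) (hΨ : normSq Ψ = 1) (X : Finset (Site L)) :
    emb X (pw (rdm_psd Ψ X).1 0) *ᵥ Ψ = Ψ ∧ (emb X (pw (rdm_psd Ψ X).1 0))ᴴ *ᵥ Ψ = Ψ := by
  have h1 : (emb X (pw (rdm_psd Ψ X).1 0) : TorOp d L)ᴴ = emb X (pw (rdm_psd Ψ X).1 0) := by
    rw [emb_star, pw_star, map_zero]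
  have h2 : (emb X (pw (rdm_psd Ψ X).1 0) : TorOp d L) * emb X (pw (rdm_psd Ψ X).1 0) =
      emb X (pw (rdm_psd Ψ X).1 0) := by
    rw [← emb_mul, pw_mul, add_zero]
  have h3 : ip Ψ (emb X (pw (rdm_psd Ψ X).1 0) *ᵥ Ψ) = 1 := by
    rw [ip_emb, pw_zero_mul _ (rdm_psd Ψ X), trace_rdm Ψ hΨ]
  have h4 := fix_of_proj _ h1 h2 Ψ hΨ h3
  exact ⟨h4, by rw [h1]; exact h4⟩

/-- the local factors -/
noncomputable def fac (Ψ : (Site L → Fin d) → ℂ) (B : Finset (Site L)) (v : Site L) (z : ℂ) :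
    TorOp d L :=
  emb (insert v B) (pw (rdm_psd Ψ (insert v B)).1 (z / 2)) * emb B (pw (rdm_psd Ψ B).1 (-z / 2))

theorem fac_diff (Ψ : (Site L → Fin d) → ℂ) (B : Finset (Site L)) (v : Site L) :
    Differentiable ℂ (fac Ψ B v) := by
  have h1 : Differentiable ℂ fun z : ℂ => (emb (insert v B)
      (pw (rdm_psd Ψ (insert v B)).1 (z / 2)) : TorOp d L) := by
    have := emb_diff _ _ (diff_half (rdm_psd Ψ (insert v B)).1 1)
    simpa only [one_mul] using this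
  have h2 : Differentiable ℂ fun z : ℂ => (emb B (pw (rdm_psd Ψ B).1 (-z / 2)) : TorOp d L) := by
    have := emb_diff _ _ (diff_half (rdm_psd Ψ B).1 (-1))
    simpa only [neg_one_mul] using this
  exact h1.mul h2

theorem fac_zero (Ψ : (Site L → Fin d) → ℂ) (hΨ : normSq Ψ = 1) (B : Finset (Site L))
    (v : Site L) : fac Ψ B v 0 *ᵥ Ψ = Ψ ∧ (fac Ψ B v 0)ᴴ *ᵥ Ψ = Ψ := by
  unfold fac
  rw [neg_zero, zero_div]
  obtain ⟨h1, h2⟩ := emb_pw_zero Ψ hΨ (insert v B)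
  obtain ⟨h3, h4⟩ := emb_pw_zero Ψ hΨ B
  constructor
  · rw [← Matrix.mulVec_mulVec, h3, h1]
  · rw [Matrix.conjTranspose_mul, ← Matrix.mulVec_mulVec, h2, h4]

theorem fac_deriv (Ψ : (Site L → Fin d) → ℂ) (hΨ : normSq Ψ = 1) (B : Finset (Site L))
    (v : Site L) : ∃ T' : TorOp d L, HasDerivAt (fac Ψ B v) T' 0 ∧
      ip Ψ (T' *ᵥ Ψ) =
        ((-((vn (rdm_psd Ψ (insert v B)).1 - vn (rdm_psd Ψ B).1) / 2) : ℝ) : ℂ) := by
  have h1 : HasDerivAt (fun z : ℂ => (emb (insert v B)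
      (pw (rdm_psd Ψ (insert v B)).1 (z / 2)) : TorOp d L))
      (emb (insert v B) ((1 / 2 : ℂ) • lg (rdm_psd Ψ (insert v B)).1)) 0 := by
    have := emb_deriv _ _ _ 0 (deriv_half (rdm_psd Ψ (insert v B)).1 1)
    simpa only [one_mul] using this
  have h2 : HasDerivAt (fun z : ℂ => (emb B (pw (rdm_psd Ψ B).1 (-z / 2)) : TorOp d L))
      (emb B ((-1 / 2 : ℂ) • lg (rdm_psd Ψ B).1)) 0 := by
    have := emb_deriv _ _ _ 0 (deriv_half (rdm_psd Ψ B).1 (-1))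
    simpa only [neg_one_mul] using this
  refine ⟨_, h1.mul h2, ?_⟩
  rw [neg_zero, zero_div]
  obtain ⟨h3, h4⟩ := emb_pw_zero Ψ hΨ (insert v B)
  obtain ⟨h5, h6⟩ := emb_pw_zero Ψ hΨ B
  rw [Matrix.add_mulVec, ip_add_right, ← Matrix.mulVec_mulVec, h5, ← Matrix.mulVec_mulVec,
    ip_adj (emb (insert v B) (pw _ 0)), h4, ip_emb, ip_emb, Matrix.smul_mul, Matrix.trace_smul,
    trace_lg, Matrix.smul_mul, Matrix.trace_smul, trace_lg]
  push_cast
  simp only [smul_eq_mul]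
  ring

theorem fac_norm (Ψ : (Site L → Fin d) → ℂ) (B : Finset (Site L)) (v : Site L) (z : ℂ)
    (hz : z.re = 0) : ‖fac Ψ B v z‖ ≤ 1 := by
  unfold fac
  have h1 : ‖(emb (insert v B) (pw (rdm_psd Ψ (insert v B)).1 (z / 2)) : TorOp d L)‖ ≤ 1 :=
    (norm_emb _ _).trans (norm_pw _ _ (by simp [hz]))
  have h2 : ‖(emb B (pw (rdm_psd Ψ B).1 (-z / 2)) : TorOp d L)‖ ≤ 1 :=
    (norm_emb _ _).trans (norm_pw _ _ (by simp [hz]))
  calc _ ≤ _ := norm_mul_le _ _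
    _ ≤ 1 * 1 := mul_le_mul h1 h2 (norm_nonneg _) zero_le_one
    _ = 1 := one_mul 1

theorem fac_bdd (Ψ : (Site L → Fin d) → ℂ) (B : Finset (Site L)) (v : Site L) :
    ∃ C : ℝ, ∀ z : ℂ, 0 ≤ z.re → z.re ≤ 1 → ‖fac Ψ B v z‖ ≤ C := by
  obtain ⟨C₁, h₁⟩ := bdd_pw (rdm_psd Ψ (insert v B)).1
  obtain ⟨C₂, h₂⟩ := bdd_pw (rdm_psd Ψ B).1
  refine ⟨C₁ * C₂, fun z h0 h1 => ?_⟩
  have e1 : |(z / 2).re| ≤ 1 := by
    have : (z / 2).re = z.re / 2 := by simp
    rw [this, abs_of_nonneg (by linarith)]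
    linarith
  have e2 : |(-z / 2).re| ≤ 1 := by
    have : (-z / 2).re = -(z.re / 2) := by simp [neg_div]
    rw [this, abs_neg, abs_of_nonneg (by linarith)]
    linarith
  have k1 := (norm_emb (insert v B) (pw (rdm_psd Ψ (insert v B)).1 (z / 2))).trans (h₁ _ e1)
  have k2 := (norm_emb B (pw (rdm_psd Ψ B).1 (-z / 2))).trans (h₂ _ e2)
  unfold fac
  exact (norm_mul_le _ _).trans (mul_le_mul k1 k2 (norm_nonneg _) ((norm_nonneg _).trans k1))

theorem sup_adj {S : Set (Site L)} {X : TorOp d L} (hX : Sup S X) : Sup S Xᴴ := by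
  refine ⟨?_, ?_⟩
  · rintro s t ⟨v, hv, hne⟩
    rw [Matrix.conjTranspose_apply, hX.1 t s ⟨v, hv, fun h => hne h.symm⟩, star_zero]
  · intro s t s' t' h1 h2 h3
    rw [Matrix.conjTranspose_apply, Matrix.conjTranspose_apply,
      hX.2 t s t' s' (fun v hv => (h1 v hv).symm) (fun v hv => (h2 v hv).symm)
        (fun v hv => ⟨(h3 v hv).2, (h3 v hv).1⟩)]

theorem hs_step (Ψ : (Site L → Fin d) → ℂ) (B : Finset (Site L)) (v : Site L) (hv : v ∉ B)
    (S : Set (Site L)) (hS : v ∉ S) (hBS : (B : Set (Site L)) ⊆ S) (Z : TorOp d L)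
    (hZ : Sup S Z) (z : ℂ) (hz : z.re = 1) : d * hs (fac Ψ B v z * Z) ≤ hs Z := by
  obtain ⟨ρ, hρd⟩ : ∃ ρ, ρ = rdm Ψ (insert v B) := ⟨_, rfl⟩
  obtain ⟨A, hA⟩ : ∃ A, A = pw (rdm_psd Ψ (insert v B)).1 (z / 2) := ⟨_, rfl⟩
  obtain ⟨C, hC⟩ : ∃ C, C = pw (rdm_psd Ψ B).1 (-z / 2) := ⟨_, rfl⟩
  obtain ⟨Z', hZ'⟩ : ∃ Z' : TorOp d L, Z' = emb B C * Z := ⟨_, rfl⟩
  have hf : fac Ψ B v z * Z = emb (insert v B) A * Z' := by
    unfold fac
    rw [hZ', hA, hC, mul_assoc]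
  have hZ's : Sup S Z' := by
    rw [hZ']
    exact Sup.mul ((sup_emb B C).mono hBS) hZ
  have hAA : Aᴴ * A = ρ := by
    rw [hA, hρd]
    exact pw_conj_mul _ (rdm_psd Ψ _) z hz
  have hCC : Cᴴ * (rdm Ψ B * C) = pw (rdm_psd Ψ B).1 0 := by
    rw [hC]
    exact pw_conj_mid _ (rdm_psd Ψ _) z hz
  have h1 : Matrix.trace ((emb (insert v B) A * Z') * (emb (insert v B) A * Z')ᴴ) =
      Matrix.trace (emb (insert v B) ρ * (Z' * Z'ᴴ)) := by
    rw [Matrix.conjTranspose_mul, ← mul_assoc, Matrix.trace_mul_comm, emb_star,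
      ← hAA, emb_mul, mul_assoc, mul_assoc]
  have h2 := trace_step Ψ B v hv S hS (Z' * Z'ᴴ) (Sup.mul hZ's (sup_adj hZ's))
  rw [← hρd, ← h1, trace_hs] at h2
  have h3 : Matrix.trace (emb B (rdm Ψ B) * (Z' * Z'ᴴ)) =
      Matrix.trace (emb B (pw (rdm_psd Ψ B).1 0) * (Z * Zᴴ)) := by
    rw [hZ', Matrix.conjTranspose_mul, ← hCC, emb_mul, emb_mul, ← emb_star]
    rw [show emb B (rdm Ψ B) * (emb B C * Z * (Zᴴ * (emb B C)ᴴ)) =
      (emb B (rdm Ψ B) * emb B C * Z * Zᴴ) * (emb B C)ᴴ by simp only [mul_assoc],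
      Matrix.trace_mul_comm]
    simp only [mul_assoc]
  obtain ⟨P, hP⟩ : ∃ P : TorOp d L, P = emb B (pw (rdm_psd Ψ B).1 0) := ⟨_, rfl⟩
  have hP1 : Pᴴ = P := by rw [hP, emb_star, pw_star, map_zero]
  have hP2 : P * P = P := by rw [hP, ← emb_mul, pw_mul, add_zero]
  have h4 : Matrix.trace (P * (Z * Zᴴ)) = ((hs (P * Z) : ℝ) : ℂ) := by
    rw [← trace_hs, Matrix.conjTranspose_mul, hP1]
    calc Matrix.trace (P * (Z * Zᴴ)) = Matrix.trace (P * P * (Z * Zᴴ)) := by rw [hP2]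
      _ = Matrix.trace (P * (P * Z * Zᴴ)) := by simp only [mul_assoc]
      _ = Matrix.trace ((P * Z * Zᴴ) * P) := Matrix.trace_mul_comm _ _
      _ = Matrix.trace (P * Z * (Zᴴ * P)) := by simp only [mul_assoc]
  rw [h3, ← hP, h4] at h2
  have h5 : (d : ℝ) * hs (emb (insert v B) A * Z') = hs (P * Z) := by exact_mod_cast h2
  rw [hf, h5]
  refine hs_mul_le P Z ?_
  rw [hP]
  exact (norm_emb _ _).trans (norm_pw _ _ rfl)

theorem hs_chain : ∀ (n : ℕ) (T : Fin n → TorOp d L) (S : ℕ → Set (Site L)),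
    (∀ k, S (k + 1) ⊆ S k) → (∀ i : Fin n, Sup (S i) (T i)) →
    (∀ (i : Fin n) (Z : TorOp d L), Sup (S (i + 1)) Z → d * hs (T i * Z) ≤ hs Z) →
    Sup (S 0) (op T) ∧ (d : ℝ) ^ n * hs (op T) ≤ hs (1 : TorOp d L) := by
  intro n
  induction n with
  | zero =>
    intro T S _ _ _
    rw [op_zero]
    exact ⟨Sup.one _, by simp⟩
  | succ n ih =>
    intro T S hmono hsup hstep
    obtain ⟨h1, h2⟩ := ih (fun i => T i.succ) (fun k => S (k + 1)) (fun k => hmono (k + 1))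
      (fun i => by simpa using hsup i.succ) (fun i Z hZ => by
        have := hstep i.succ Z (by simpa using hZ)
        exact this)
    rw [op_succ]
    have h3 := hstep 0 (op fun i : Fin n => T i.succ) (by simpa using h1)
    refine ⟨Sup.mul (by simpa using hsup 0) (h1.mono (hmono 0)), ?_⟩
    have h4 : (d : ℝ) ^ n * (d * hs (T 0 * op fun i : Fin n => T i.succ)) ≤
        (d : ℝ) ^ n * hs (op fun i : Fin n => T i.succ) :=
      mul_le_mul_of_nonneg_left h3 (by positivity)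
    calc (d : ℝ) ^ (n + 1) * hs (T 0 * op fun i : Fin n => T i.succ) =
        (d : ℝ) ^ n * (d * hs (T 0 * op fun i : Fin n => T i.succ)) := by ring
      _ ≤ _ := h4.trans h2

theorem sup_fac (Ψ : (Site L → Fin d) → ℂ) (B : Finset (Site L)) (v : Site L) (z : ℂ) :
    Sup ((insert v B : Finset (Site L)) : Set (Site L)) (fac Ψ B v z) := by
  unfold fac
  refine Sup.mul (sup_emb _ _) ((sup_emb _ _).mono ?_)
  intro x hx
  exact Finset.mem_coe.2 (Finset.mem_insert_of_mem (Finset.mem_coe.1 hx))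

/-- a vector with small Markov entropy overlaps with a sequential product of local operators
applied to a basis vector -/
theorem markov_vector (Ψ : (Site L → Fin d) → ℂ) (hΨ : normSq Ψ = 1) (v : Fin (L ^ 2) ≃ Site L)
    (B : Fin (L ^ 2) → Finset (Site L)) (hB : ∀ i, ∀ x ∈ B i, i < v.symm x) (M : ℝ)
    (hM : ∑ i, (vn (rdm_psd Ψ (insert (v i) (B i))).1 - vn (rdm_psd Ψ (B i)).1) ≤ M) :
    ∃ (T : Fin (L ^ 2) → TorOp d L) (s : Site L → Fin d),
      (∀ i, Sup ((insert (v i) (B i) : Finset (Site L)) : Set (Site L)) (T i)) ∧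
        0 < normSq (op T *ᵥ Pi.single s 1) ∧
        Real.exp (-(M + 1)) * normSq (op T *ᵥ Pi.single s 1) ≤
          ‖ip Ψ (op T *ᵥ Pi.single s 1)‖ ^ 2 := by
  classical
  have hne := nonempty_of_normSq Ψ hΨ
  have hnΨ : nr Ψ = 1 := nr_one Ψ hΨ
  obtain ⟨M₀, hM₀⟩ : ∃ M₀ : ℝ, M₀ = ∑ i, (vn (rdm_psd Ψ (insert (v i) (B i))).1 -
    vn (rdm_psd Ψ (B i)).1) := ⟨_, rfl⟩
  rw [← hM₀] at hM
  obtain ⟨F, hF⟩ : ∃ F : ℂ → TorOp d L, F = fun z => op fun i => fac Ψ (B i) (v i) z := ⟨_, rfl⟩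
  have hFd : Differentiable ℂ F := by
    rw [hF]
    exact op_diff _ (fun i => fac Ψ (B i) (v i)) fun i => fac_diff Ψ (B i) (v i)
  choose T' hT'1 hT'2 using fun i => fac_deriv Ψ hΨ (B i) (v i)
  obtain ⟨k1, W', k2, k3⟩ := op_deriv Ψ (L ^ 2) (fun i => fac Ψ (B i) (v i)) T' hT'1
    (fun i => (fac_zero Ψ hΨ (B i) (v i)).1) (fun i => (fac_zero Ψ hΨ (B i) (v i)).2)
  choose C hC using fun i => fac_bdd Ψ (B i) (v i)
  have hnormF : ∀ z, ‖ip Ψ (F z *ᵥ Ψ)‖ ≤ ‖F z‖ := by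
    intro z
    refine (ip_le _ _).trans ?_
    rw [hnΨ, one_mul]
    refine (nr_mulVec _ _).trans ?_
    rw [hnΨ, mul_one]
  have hgd : HasDerivAt (fun z => ev Ψ (F z)) ((-(M₀ / 2) : ℝ) : ℂ) 0 := by
    have h1 := (ev Ψ).hasFDerivAt.comp_hasDerivAt (0 : ℂ) k2
    have h2 : ev Ψ W' = ((-(M₀ / 2) : ℝ) : ℂ) := by
      rw [ev_apply, k3, Finset.sum_congr rfl fun i _ => hT'2 i, ← Complex.ofReal_sum, hM₀,
        Finset.sum_neg_distrib, Finset.sum_div]
    rw [h2] at h1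
    rw [hF]
    exact h1
  obtain ⟨t, ht⟩ := strip_bound (fun z => ev Ψ (F z)) ((ev Ψ).differentiable.comp hFd) (∏ i, C i)
    (fun z h0 h1 => by
      beta_reduce
      rw [ev_apply]
      refine (hnormF z).trans ?_
      rw [hF]
      exact norm_op_le' _ _ fun i => hC i z h0 h1)
    (fun t => by
      beta_reduce
      rw [ev_apply]
      refine (hnormF _).trans ?_
      rw [hF]
      refine (norm_op_le' _ (fun _ => (1 : ℝ)) fun i => fac_norm Ψ (B i) (v i) _ ?_).trans ?_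
      · simp
      · simp)
    (by
      beta_reduce
      rw [ev_apply, hF, k1, ip_self_one Ψ hΨ])
    M₀ hgd (1 / 2) (by norm_num)
  obtain ⟨z, hz⟩ : ∃ z : ℂ, z = 1 + t * Complex.I := ⟨_, rfl⟩
  have hzre : z.re = 1 := by rw [hz]; simp
  rw [← hz, ev_apply, hF] at ht
  obtain ⟨S, hS⟩ : ∃ S : ℕ → Set (Site L), S = fun k => {x | k ≤ (v.symm x : ℕ)} := ⟨_, rfl⟩
  have hSm : ∀ k, S (k + 1) ⊆ S k := by
    intro k x hx
    rw [hS] at hx ⊢
    exact (Nat.le_succ k).trans hx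
  have hsup : ∀ i : Fin (L ^ 2), Sup (S i) (fac Ψ (B i) (v i) z) := by
    intro i
    refine (sup_fac Ψ (B i) (v i) z).mono ?_
    intro x hx
    rw [hS]
    rcases Finset.mem_insert.1 (Finset.mem_coe.1 hx) with h | h
    · rw [h]
      show (i : ℕ) ≤ (v.symm (v i) : ℕ)
      rw [Equiv.symm_apply_apply]
    · exact (hB i x h).le
  have hd0 : 0 < d := by
    obtain ⟨s⟩ := hne
    exact Nat.pos_of_ne_zero fun h => by
      subst h
      exact (s 0).elim0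
  have hhs := (hs_chain (L ^ 2) (fun i => fac Ψ (B i) (v i) z) S hSm hsup (fun i Z hZ =>
    hs_step Ψ (B i) (v i) (fun h => absurd (hB i _ h) (by simp)) (S (i + 1)) (by
      rw [hS]
      show ¬ ((i : ℕ) + 1 ≤ (v.symm (v i) : ℕ))
      rw [Equiv.symm_apply_apply]
      omega) (fun x hx => by
      rw [hS]
      exact hB i x (Finset.mem_coe.1 hx)) Z hZ z hzre)).2
  have hhs1 : hs (op fun i => fac Ψ (B i) (v i) z) ≤ 1 := by
    rw [hs_one, Fintype.card_fun, card_site, Fintype.card_fin] at hhs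
    push_cast at hhs
    have hpos : (0 : ℝ) < (d : ℝ) ^ (L ^ 2) := by positivity
    exact le_of_mul_le_mul_left (by rw [mul_one]; exact hhs) hpos
  obtain ⟨s, hs0, hs1⟩ := good_col Ψ hΨ _ hhs1 (Real.exp (-(M + 1))) (Real.exp_pos _) (by
    refine le_trans ?_ (pow_le_pow_left₀ (Real.exp_pos _).le ht 2)
    rw [← Real.exp_nat_mul]
    apply Real.exp_le_exp.2
    push_cast
    linarith)
  exact ⟨fun i => fac Ψ (B i) (v i) z, s, fun i => sup_fac Ψ (B i) (v i) z, hs0, hs1⟩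

end torus

end Pool.Agent.T6.H19.MK
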